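import Pool.Agent.R688.HK.Conc

/-!
# Hilbert-Kunz multiplicity and F-signature of Gorenstein rings (MP_be9c2a_al, Q1)

For every prime `p ≥ 3` there is an F-finite Gorenstein local domain of dimension two and
characteristic `p` satisfying `e_HK = s + (1 - s) e` whose multiplicity `e = p` is at least three.
-/

set_option autoImplicit false

open IsLocalRing Pool.Agent.R688.HK

namespace Pool.Agent.Results.MP_be9c2a_al.UlrichFrobenius

/-- For every prime `p ≥ 3` there is an F-finite Gorenstein Noetherian local domain `A` of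
characteristic `p` and Krull dimension two such that the multiplicity `e`, the Hilbert-Kunz
multiplicity `eHK` and the F-signature `s` of `A` satisfy `eHK = s + (1 - s) * e`, while `e = p`
is at least three (here `s = 0`). -/
theorem result (p : ℕ) (hp : p.Prime) (h3 : 3 ≤ p) :
    ∃ (A : Type) (_ : CommRing A) (_ : IsDomain A) (_ : IsLocalRing A) (_ : IsNoetherianRing A)
      (_ : CharP A p) (_ : ExpChar A p) (_ : ExpChar (ResidueField A) p),
      FFinite A p ∧ IsGor A ∧ ringKrullDim A = 2 ∧
      ∃ e eHK s : ℝ, IsMult A 2 e ∧ IsHKMult A p 2 eHK ∧ IsFSig A p 2 s ∧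
        eHK = s + (1 - s) * e ∧ 3 ≤ e ∧ e = p ∧ s = 0 := by
  obtain ⟨A, h1, h2, h4, h5, h6, h7, h8, h9, h10, h11, h12, h13, h14⟩ := main p hp h3
  refine ⟨A, h1, h2, h4, h5, h6, h7, h8, h9, h10, h11, p, p, 0, h12, h13, h14, ?_, ?_, rfl, rfl⟩
  · ring
  · exact_mod_cast h3

end Pool.Agent.Results.MP_be9c2a_al.UlrichFrobenius
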